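import Pool.Agent.W275.US.Stm
import Pool.Agent.W275.US.Vol

/-! # US-POL: polar decomposition in one block -/

set_option autoImplicit false

namespace Pool.Agent.W22.US

open MeasureTheory Set Pool.Agent.W275.US
open scoped ENNReal Pointwise

variable {d : ℕ}

theorem dir_meas (p : Seminorm ℝ (E d)) : Measurable (dir p) := by
  unfold dir
  exact ((p_cont p).measurable.inv).smul measurable_id

theorem dir_smul (p : Seminorm ℝ (E d)) {r : ℝ} (hr : 0 < r) (u : E d) :
    dir p (r • u) = dir p u := by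
  unfold dir
  rw [map_smul_eq_mul, Real.norm_eq_abs, abs_of_pos hr, smul_smul, mul_inv, mul_comm r⁻¹,
    mul_assoc, inv_mul_cancel₀ hr.ne', mul_one]

theorem set_scal (p : Seminorm ℝ (E d)) {r : ℝ} (hr : 0 < r) (S : Set (E d)) :
    {x | p x ≤ r ∧ dir p x ∈ S} = r • {x | p x ≤ 1 ∧ dir p x ∈ S} := by
  ext x
  rw [mem_smul_set_iff_inv_smul_mem₀ hr.ne']
  simp only [mem_ofPred_eq]
  rw [dir_smul p (inv_pos.2 hr), map_smul_eq_mul, Real.norm_eq_abs, abs_of_pos (inv_pos.2 hr),
    inv_mul_le_iff₀ hr, mul_one]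

theorem vol_scal (p : Seminorm ℝ (E d)) {r : ℝ} (hr : 0 < r) (S : Set (E d)) :
    volume {x | p x ≤ r ∧ dir p x ∈ S} =
      ENNReal.ofReal (r ^ d) * volume {x | p x ≤ 1 ∧ dir p x ∈ S} := by
  rw [set_scal p hr, Measure.addHaar_smul, finrank_euclideanSpace_fin,
    abs_of_pos (pow_pos hr d)]

theorem vol_le (p : Seminorm ℝ (E d)) {r : ℝ} (hr : 0 < r) :
    volume {x | p x ≤ r} = ENNReal.ofReal (r ^ d) * volume (ball1 p) := by
  have h := vol_scal p hr univ
  simp only [mem_univ, and_true] at h
  exact h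

theorem vol_nonpos {p : Seminorm ℝ (E d)} (hd : 1 ≤ d) (hp : Def p) {r : ℝ} (hr : r ≤ 0) :
    volume {x | p x ≤ r} = 0 := by
  have : Nontrivial (E d) := by
    have : Nonempty (Fin d) := ⟨⟨0, hd⟩⟩
    infer_instance
  refine measure_mono_null (t := {0}) (fun x hx => ?_) (measure_singleton 0)
  have h1 : p x ≤ 0 := le_trans hx hr
  exact hp x (le_antisymm h1 (apply_nonneg p x))

theorem vol_fin {p : Seminorm ℝ (E d)} (hp : Def p) (r : ℝ) : volume {x | p x ≤ r} < ⊤ := by
  have h1 : {x | p x ≤ r} ⊆ {x | p x ≤ max r 1} := fun x (hx : p x ≤ r) =>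
    show p x ≤ max r 1 from le_trans hx (le_max_left _ _)
  refine (measure_mono h1).trans_lt ?_
  rw [vol_le p (lt_of_lt_of_le one_pos (le_max_right _ _))]
  exact ENNReal.mul_lt_top ENNReal.ofReal_lt_top (ball1_vol hp).2

/-- the radial measure is finite on the sets `Iic n` -/
noncomputable def spanR {m : Measure ℝ} (h : ∀ r : ℝ, m (Iic r) < ⊤) :
    m.FiniteSpanningSetsIn (range Iic) where
  set n := Iic (n : ℝ)
  set_mem n := ⟨n, rfl⟩
  finite n := h n
  spanning := by
    rw [eq_univ_iff_forall]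
    intro x
    obtain ⟨n, hn⟩ := exists_nat_ge x
    exact mem_iUnion.2 ⟨n, hn⟩

theorem map_p_Iic (p : Seminorm ℝ (E d)) (r : ℝ) :
    (volume : Measure (E d)).map p (Iic r) = volume {x | p x ≤ r} :=
  Measure.map_apply (p_cont p).measurable measurableSet_Iic

theorem joint {p : Seminorm ℝ (E d)} (hd : 1 ≤ d) (hp : Def p) :
    ((volume : Measure (E d)).map p).prod ((unif p).map (dir p)) =
      (volume : Measure (E d)).map (fun x => (p x, dir p x)) := by
  have := unif_prob hp
  have hP : IsProbabilityMeasure ((unif p).map (dir p)) :=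
    Measure.isProbabilityMeasure_map (dir_meas p).aemeasurable
  have hpair : Measurable (fun x : E d => (p x, dir p x)) :=
    (p_cont p).measurable.prodMk (dir_meas p)
  refine Measure.prod_eq_generateFrom (C := range Iic) (D := {s | MeasurableSet s}) ?_
    MeasurableSpace.generateFrom_measurableSet isPiSystem_Iic MeasurableSpace.isPiSystem_measurableSet
    (spanR fun r => by rw [map_p_Iic]; exact vol_fin hp r)
    ((unif p).map (dir p)).toFiniteSpanningSetsIn ?_
  · rw [BorelSpace.measurable_eq (α := ℝ), borel_eq_generateFrom_Iic]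
  · rintro _ ⟨r, rfl⟩ t ht
    rw [Measure.map_apply hpair (measurableSet_Iic.prod ht), map_p_Iic,
      Measure.map_apply (dir_meas p) ht]
    have h1 : (fun x : E d => (p x, dir p x)) ⁻¹' (Iic r ×ˢ t) = {x | p x ≤ r ∧ dir p x ∈ t} := by
      ext x
      simp [mem_prod]
    rw [h1]
    rcases le_or_gt r 0 with hr | hr
    · rw [vol_nonpos hd hp hr, zero_mul]
      exact measure_mono_null (fun x hx => hx.1) (vol_nonpos hd hp hr)
    · rw [vol_scal p hr, vol_le p hr]
      unfold unif
      rw [ProbabilityTheory.cond_apply (ball1_meas p)]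
      have h2 : {x | p x ≤ 1 ∧ dir p x ∈ t} = ball1 p ∩ dir p ⁻¹' t := rfl
      rw [h2, mul_assoc, ← mul_assoc (volume (ball1 p)),
        ENNReal.mul_inv_cancel (ball1_vol hp).1.ne' (ball1_vol hp).2.ne, one_mul]

/-- **S_pol** -/
theorem pol : S_pol := by
  intro d hd p hp
  have := unif_prob hp
  have hm : Measurable (fun q : E d × E d => p q.1 • dir p q.2) :=
    ((p_cont p).measurable.comp measurable_fst).smul ((dir_meas p).comp measurable_snd)
  refine ⟨hm, ?_⟩
  have hsm : Measurable (fun z : ℝ × E d => z.1 • z.2) := measurable_fst.smul measurable_snd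
  have h1 : (fun q : E d × E d => p q.1 • dir p q.2) =
      (fun z : ℝ × E d => z.1 • z.2) ∘ Prod.map p (dir p) := rfl
  rw [h1, ← Measure.map_map hsm ((p_cont p).measurable.prodMap (dir_meas p)),
    ← Measure.map_prod_map _ _ (p_cont p).measurable (dir_meas p), joint hd hp,
    Measure.map_map hsm ((p_cont p).measurable.prodMk (dir_meas p))]
  have h2 : ((fun z : ℝ × E d => z.1 • z.2) ∘ fun x => (p x, dir p x)) = id := by
    funext x
    show p x • dir p x = x
    unfold dir
    rcases eq_or_ne (p x) 0 with h | h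
    · rw [hp x h]
      simp
    · rw [smul_smul, mul_inv_cancel₀ h, one_smul]
  rw [h2, Measure.map_id]

end Pool.Agent.W22.US
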