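import Pool.Agent.W22.US.Pol

/-! # US-RAD: the law of the norms of the blocks -/

set_option autoImplicit false

namespace Pool.Agent.W22.US

open MeasureTheory Set Pool.Agent.W275.US
open scoped ENNReal Pointwise

variable {d : ℕ}

theorem finrank_W (d : ℕ) : Module.finrank ℝ (W d) = d := by
  rw [finrank_euclideanSpace, Fintype.card_prod, Fintype.card_fin, Fintype.card_fin, mul_one]

/-- the Euclidean radial measure -/
theorem wr_meas {t : ℝ} : Measurable (fun z : W d => t * ‖z‖) := measurable_norm.const_mul t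

theorem wr_Iic {t : ℝ} (ht : 0 < t) {r : ℝ} (hr : 0 < r) :
    (volume : Measure (W d)).map (fun z => t * ‖z‖) (Iic r) =
      ENNReal.ofReal ((r / t) ^ d) * volume (Metric.closedBall (0 : W d) 1) := by
  rw [Measure.map_apply wr_meas measurableSet_Iic]
  have h1 : (fun z : W d => t * ‖z‖) ⁻¹' Iic r = Metric.closedBall (0 : W d) (r / t) := by
    ext z
    rw [mem_preimage, mem_Iic, mem_closedBall_zero_iff, le_div_iff₀ ht, mul_comm]
  rw [h1, Measure.addHaar_closedBall' volume (0 : W d) (div_pos hr ht).le, finrank_W]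

theorem wr_nonpos (hd : 1 ≤ d) {t : ℝ} (ht : 0 < t) {r : ℝ} (hr : r ≤ 0) :
    (volume : Measure (W d)).map (fun z => t * ‖z‖) (Iic r) = 0 := by
  rw [Measure.map_apply wr_meas measurableSet_Iic]
  have : Nontrivial (W d) := by
    have : Nonempty (Fin d) := ⟨⟨0, hd⟩⟩
    infer_instance
  refine measure_mono_null (t := {0}) (fun x hx => ?_) (measure_singleton 0)
  have h1 : t * ‖x‖ ≤ 0 := le_trans hx hr
  have h2 : ‖x‖ ≤ 0 := by
    by_contra h
    push Not at h
    linarith [mul_pos ht h]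
  exact norm_le_zero_iff.1 h2

theorem wr_fin {t : ℝ} (ht : 0 < t) (r : ℝ) :
    (volume : Measure (W d)).map (fun z => t * ‖z‖) (Iic r) < ⊤ := by
  refine (measure_mono (Iic_subset_Iic.2 (le_max_left r 1))).trans_lt ?_
  rw [wr_Iic ht (lt_of_lt_of_le one_pos (le_max_right _ _))]
  exact ENNReal.mul_lt_top ENNReal.ofReal_lt_top
    (isCompact_closedBall (0 : W d) 1).measure_lt_top

theorem one_block {p : Seminorm ℝ (E d)} (hd : 1 ≤ d) (hp : Def p) {t : ℝ} (ht : 0 < t) :
    ∃ c : ℝ≥0∞, c ≠ 0 ∧ c ≠ ⊤ ∧ (volume : Measure (E d)).map p =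
      c • (volume : Measure (W d)).map (fun z => t * ‖z‖) := by
  set V := volume (Metric.closedBall (0 : W d) 1) with hV
  have hV0 : V ≠ 0 := (Metric.measure_closedBall_pos volume (0 : W d) one_pos).ne'
  have hVt : V ≠ ⊤ := (isCompact_closedBall (0 : W d) 1).measure_lt_top.ne
  have hB := ball1_vol hp
  refine ⟨ENNReal.ofReal (t ^ d) * volume (ball1 p) * V⁻¹, ?_, ?_, ?_⟩
  · refine mul_ne_zero (mul_ne_zero ?_ hB.1.ne') (ENNReal.inv_ne_zero.2 hVt)
    rw [Ne, ENNReal.ofReal_eq_zero, not_le]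
    exact pow_pos ht d
  · exact ENNReal.mul_ne_top (ENNReal.mul_ne_top ENNReal.ofReal_ne_top hB.2.ne)
      (ENNReal.inv_ne_top.2 hV0)
  · refine Measure.ext_of_generateFrom_of_iUnion (range Iic) (fun n : ℕ => Iic (n : ℝ)) ?_
      isPiSystem_Iic ?_ (fun n => ⟨n, rfl⟩) (fun n => ?_) ?_
    · rw [BorelSpace.measurable_eq (α := ℝ), borel_eq_generateFrom_Iic]
    · rw [eq_univ_iff_forall]
      intro x
      obtain ⟨n, hn⟩ := exists_nat_ge x
      exact mem_iUnion.2 ⟨n, hn⟩
    · rw [map_p_Iic]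
      exact (vol_fin hp _).ne
    · rintro _ ⟨r, rfl⟩
      rw [map_p_Iic, Measure.smul_apply, smul_eq_mul]
      rcases le_or_gt r 0 with hr | hr
      · rw [vol_nonpos hd hp hr, wr_nonpos hd ht hr, mul_zero]
      · rw [vol_le p hr, wr_Iic ht hr, ← hV]
        have e1 : ENNReal.ofReal (t ^ d) * volume (ball1 p) * V⁻¹ *
            (ENNReal.ofReal ((r / t) ^ d) * V) =
            (ENNReal.ofReal (t ^ d) * ENNReal.ofReal ((r / t) ^ d)) * volume (ball1 p) *
              (V⁻¹ * V) := by ring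
        rw [e1, ENNReal.inv_mul_cancel hV0 hVt, mul_one,
          ← ENNReal.ofReal_mul (pow_nonneg ht.le d), ← mul_pow, mul_div_cancel₀ _ ht.ne']

theorem pi_smul_measure {b : ℕ} (c : Fin b → ℝ≥0∞) (m : Fin b → Measure ℝ)
    [∀ i, SigmaFinite (m i)] [∀ i, SigmaFinite (c i • m i)] :
    Measure.pi (fun i => c i • m i) = (∏ i, c i) • Measure.pi m := by
  refine Measure.pi_eq fun s hs => ?_
  rw [Measure.smul_apply, smul_eq_mul, Measure.pi_pi, ← Finset.prod_mul_distrib]
  refine Finset.prod_congr rfl fun i _ => ?_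
  rw [Measure.smul_apply, smul_eq_mul]

/-- **S_rad** -/
theorem rad : S_rad := by
  intro b d hd p hp τ hτ
  choose c hc0 hct hc using fun i => one_block hd (hp i) (hτ i)
  have hs1 : ∀ i, SigmaFinite ((volume : Measure (E d)).map (p i)) := fun i =>
    (spanR fun r => by rw [map_p_Iic]; exact vol_fin (hp i) r).sigmaFinite
  have hs2 : ∀ i, SigmaFinite ((volume : Measure (W d)).map (fun z => τ i * ‖z‖)) := fun i =>
    (spanR fun r => wr_fin (hτ i) r).sigmaFinite
  have hs3 : ∀ i, SigmaFinite (c i • (volume : Measure (W d)).map (fun z => τ i * ‖z‖)) :=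
    fun i => by rw [← hc i]; exact hs1 i
  refine ⟨∏ i, c i, Finset.prod_ne_zero_iff.2 fun i _ => hc0 i,
    ENNReal.prod_ne_top fun i _ => hct i, ?_⟩
  have hX : (volume : Measure (X b d)).map (fun x i => p i (blk i x)) =
      Measure.pi fun i => (volume : Measure (E d)).map (p i) := by
    rw [← Measure.pi_map_pi (μ := fun _ : Fin b => (volume : Measure (E d)))
      (f := fun i => p i) fun i => (p_cont (p i)).measurable.aemeasurable,
      ← (blk_mp b d).map_eq, Measure.map_map]
    · rfl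
    · exact measurable_pi_iff.2 fun i => (p_cont (p i)).measurable.comp (measurable_pi_apply i)
    · exact (blk_mp b d).measurable
  have hZ : (volume : Measure (Z b d)).map (fun z i => τ i * ‖zblk i z‖) =
      Measure.pi fun i => (volume : Measure (W d)).map (fun z => τ i * ‖z‖) := by
    rw [← Measure.pi_map_pi (μ := fun _ : Fin b => (volume : Measure (W d)))
      (f := fun i z => τ i * ‖z‖) fun i => wr_meas.aemeasurable,
      ← (zblk_mp b d).map_eq, Measure.map_map]
    · rfl
    · exact measurable_pi_iff.2 fun i => wr_meas.comp (measurable_pi_apply i)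
    · exact (zblk_mp b d).measurable
  rw [hX, hZ, ← pi_smul_measure]
  congr 1
  funext i
  exact hc i

end Pool.Agent.W22.US
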